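import Pool.Agent.helper26.EC.SpecE
import Pool.Agent.helper85.BVP.Boxes

/-!
# Project EC (MP_5628fe_nt), row EDG: bound for the edge function of the primes

Remark: in `EDG_stmt` the filter of `j.divisors` is elaborated as a finite set of REAL numbers (the image of the divisors
under the cast); it has the same number of elements.
-/

set_option autoImplicit false

namespace Pool.Agent.EC

open Finset ArithmeticFunction
open Pool.Agent.CH (Win rgh dl eU Mo ClP ClB)
open Pool.Agent.helper85.BVP (trunc trunc_apply Mr Zr abs_Mr_le)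

theorem EDG_zero (U d : ℕ) (h : U ^ 2 < d) : eU U d = 0 := by
  unfold eU
  rw [ArithmeticFunction.mul_apply]
  refine Finset.sum_eq_zero fun x hx => ?_
  rw [trunc_apply, trunc_apply]
  have h3 := (Nat.mem_divisorsAntidiagonal.1 hx).1
  by_cases h1 : x.1 ≤ U
  · by_cases h2 : x.2 ≤ U
    · exfalso
      have h4 : x.1 * x.2 ≤ U * U := Nat.mul_le_mul h1 h2
      rw [h3] at h4
      rw [sq] at h
      omega
    · rw [if_neg h2, mul_zero]
  · rw [if_neg h1, zero_mul]

theorem EDG_abs (U d : ℕ) : |eU U d| ≤ Real.log d := by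
  unfold eU
  rw [ArithmeticFunction.mul_apply]
  refine (Finset.abs_sum_le_sum_abs _ _).trans ?_
  have h1 : ∀ x ∈ d.divisorsAntidiagonal, |trunc Mr U x.1 * trunc vonMangoldt U x.2| ≤ vonMangoldt x.2 := by
    intro x _
    rw [abs_mul, trunc_apply, trunc_apply]
    have h2 : |if x.1 ≤ U then Mr x.1 else 0| ≤ 1 := by
      split_ifs
      · exact abs_Mr_le _
      · rw [abs_zero]
        exact zero_le_one
    have h3 : |if x.2 ≤ U then vonMangoldt x.2 else 0| ≤ vonMangoldt x.2 := by
      split_ifs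
      · rw [abs_of_nonneg vonMangoldt_nonneg]
      · rw [abs_zero]
        exact vonMangoldt_nonneg
    calc _ ≤ 1 * vonMangoldt x.2 := mul_le_mul h2 h3 (abs_nonneg _) zero_le_one
      _ = _ := one_mul _
  refine (Finset.sum_le_sum h1).trans (le_of_eq ?_)
  rw [Nat.sum_divisorsAntidiagonal' (f := fun _ b => vonMangoldt b)]
  exact vonMangoldt_sum

/-- **EDG** -/
theorem EDG : EDG_stmt := by
  classical
  intro C
  refine ⟨3, fun N hN j hj => ?_⟩
  unfold edg
  by_cases hr : rgh (yN N) j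
  swap
  · rw [if_neg hr, if_neg hr, abs_zero]
  rw [if_pos hr, if_pos hr, abs_neg]
  obtain ⟨hj1, hj2⟩ := Finset.mem_Ioc.1 hj
  have hNpos : (0 : ℝ) < N := by
    have : 0 < N := by omega
    exact_mod_cast this
  have hL : 0 < Real.log N := Real.log_pos (by
    have : 1 < N := by omega
    exact_mod_cast this)
  have h4L : 0 ≤ 4 * Real.log N := by linarith
  have hterm : ∀ c ∈ j.divisors.filter (fun c => c ≤ UN C N), |eU (UN C N) (j / c)| ≤
      if (N : ℝ) / Real.log N ^ (2 * C) ≤ (c : ℝ) then 4 * Real.log N else 0 := by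
    intro c hc
    obtain ⟨hc1, hc2⟩ := Finset.mem_filter.1 hc
    have hcd := Nat.dvd_of_mem_divisors hc1
    have hc0 : 0 < c := Nat.pos_of_mem_divisors hc1
    split_ifs with hcc
    · refine (EDG_abs _ _).trans ?_
      have h1 : 0 < j / c := Nat.div_pos (Nat.le_of_dvd (by omega) hcd) hc0
      have h2 : j / c ≤ N ^ 4 := by
        refine (Nat.div_le_self j c).trans (hj2.trans ?_)
        have h3 : (N + 1) ^ 3 ≤ N * N ^ 3 := by
          nlinarith [Nat.pow_le_pow_left hN 2, Nat.pow_le_pow_left hN 3, mul_le_mul hN (le_refl (N ^ 3)) (Nat.zero_le _) (Nat.zero_le _), mul_le_mul hN (le_refl (N ^ 2)) (Nat.zero_le _) (Nat.zero_le _), mul_le_mul hN (le_refl N) (Nat.zero_le _) (Nat.zero_le _)]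
        calc (N + 1) ^ 3 ≤ N * N ^ 3 := h3
          _ = N ^ 4 := by ring
      have h5 : ((j / c : ℕ) : ℝ) ≤ (N : ℝ) ^ 4 := by exact_mod_cast h2
      have h6 := Real.log_le_log (by exact_mod_cast h1) h5
      rw [Real.log_pow] at h6
      push_cast at h6
      exact h6
    · have h1 : (UN C N) ^ 2 < j / c := by
        by_contra hcon
        rw [not_lt] at hcon
        apply hcc
        have h2 : j ≤ (UN C N) ^ 2 * c := by
          have h3 := Nat.div_mul_cancel hcd
          calc j = j / c * c := h3.symm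
            _ ≤ _ := Nat.mul_le_mul_right c hcon
        have h4 : (N : ℝ) ^ 3 < ((UN C N : ℕ) : ℝ) ^ 2 * c := by exact_mod_cast lt_of_lt_of_le hj1 h2
        have h5 : ((UN C N : ℕ) : ℝ) ≤ (N : ℝ) * Real.log N ^ C := by
          unfold UN
          exact Nat.floor_le (mul_nonneg (Nat.cast_nonneg N) (pow_nonneg hL.le C))
        have h6 : ((UN C N : ℕ) : ℝ) ^ 2 ≤ ((N : ℝ) * Real.log N ^ C) ^ 2 :=
          pow_le_pow_left₀ (Nat.cast_nonneg _) h5 2
        have h7 : (N : ℝ) ^ 3 < ((N : ℝ) * Real.log N ^ C) ^ 2 * c :=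
          h4.trans_le (mul_le_mul_of_nonneg_right h6 (Nat.cast_nonneg c))
        have h8 : ((N : ℝ) * Real.log N ^ C) ^ 2 * c = (N : ℝ) ^ 2 * (c * Real.log N ^ (2 * C)) := by
          rw [pow_mul' (Real.log N) 2 C]
          ring
        rw [h8, show (N : ℝ) ^ 3 = (N : ℝ) ^ 2 * N by ring] at h7
        have h9 := lt_of_mul_lt_mul_left h7 (by positivity)
        rw [div_le_iff₀ (pow_pos hL _)]
        exact h9.le
      rw [EDG_zero _ _ h1, abs_zero]
  refine (Finset.abs_sum_le_sum_abs _ _).trans ((Finset.sum_le_sum hterm).trans ?_)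
  rw [← Finset.sum_filter, Finset.sum_const, nsmul_eq_mul, mul_comm]
  refine mul_le_mul_of_nonneg_left (Nat.cast_le.2 ?_) h4L
  rw [← Finset.card_image_of_injective (f := fun c : ℕ => (c : ℝ)) _ Nat.cast_injective]
  refine Finset.card_le_card fun x hx => ?_
  obtain ⟨c, hc, rfl⟩ := Finset.mem_image.1 hx
  obtain ⟨hc1, hc2⟩ := Finset.mem_filter.1 hc
  obtain ⟨hc3, hc4⟩ := Finset.mem_filter.1 hc1
  refine Finset.mem_filter.2 ⟨?_, hc2, by exact_mod_cast hc4⟩
  exact Finset.mem_sup.2 ⟨c, hc3, Finset.mem_singleton_self _⟩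

end Pool.Agent.EC
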