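import Pool.Agent.helper26.EC.SpecE

/-!
# Project EC (MP_5628fe_nt), row EDP: the edges of the primes
-/

set_option autoImplicit false

namespace Pool.Agent.EC

open Finset ArithmeticFunction
open Pool.Agent.CH (Win rgh dl eU Mo ClP ClB)

theorem EDP_fN_nonneg (N j : ℕ) : 0 ≤ fN N j := by
  unfold fN tri
  exact le_max_left _ _

theorem EDP_rgh_div {z : ℝ} {j c : ℕ} (h : rgh z j) (hc : c ∣ j) : rgh z c := by
  refine ⟨fun h0 => h.1 ?_, fun p hp hpc => h.2 p hp (hpc.trans hc)⟩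
  rw [h0] at hc
  exact Nat.eq_zero_of_zero_dvd hc

/-! ## asymptotic inequalities -/

theorem EDP_pow (k : ℕ) {r c : ℝ} (hr : 0 < r) (hc : 0 < c) :
    ∀ᶠ N : ℕ in Filter.atTop, Real.log N ^ k ≤ c * (N : ℝ) ^ r := by
  have h1 := (isLittleO_log_rpow_rpow_atTop (k : ℝ) hr).bound hc
  have h2 := (tendsto_natCast_atTop_atTop (R := ℝ)).eventually h1
  filter_upwards [h2, Filter.eventually_ge_atTop 3] with N h3 h4
  have h5 : (0 : ℝ) ≤ Real.log N := Real.log_natCast_nonneg N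
  rw [Real.rpow_natCast, Real.norm_of_nonneg (pow_nonneg h5 k),
    Real.norm_of_nonneg (Real.rpow_nonneg (Nat.cast_nonneg N) r)] at h3
  exact h3

theorem EDP_tlog : Filter.Tendsto (fun N : ℕ => Real.log N) Filter.atTop Filter.atTop :=
  Real.tendsto_log_atTop.comp (tendsto_natCast_atTop_atTop (R := ℝ))

theorem EDP_ll {r c : ℝ} (hr : 0 < r) (hc : 0 < c) :
    ∀ᶠ N : ℕ in Filter.atTop, Real.log (Real.log N) ≤ c * Real.log N ^ r := by
  have h1 := (isLittleO_log_rpow_atTop hr).bound hc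
  have h2 := EDP_tlog.eventually h1
  filter_upwards [h2] with N h3
  have h5 : (0 : ℝ) ≤ Real.log N := Real.log_natCast_nonneg N
  rw [Real.norm_of_nonneg (Real.rpow_nonneg h5 r)] at h3
  exact (le_abs_self _).trans h3

theorem EDP_y : ∀ᶠ N : ℕ in Filter.atTop, yN N ≤ (N : ℝ) ^ (1 / 20 : ℝ) := by
  have h1 := (tendsto_rpow_atTop (show (0 : ℝ) < 1 / 20 by norm_num)).eventually (Filter.eventually_ge_atTop (20 : ℝ))
  have h2 := EDP_tlog.eventually h1
  filter_upwards [h2, Filter.eventually_ge_atTop 3] with N h3 h4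
  have h5 : (0 : ℝ) < N := by
    have : 0 < N := by omega
    exact_mod_cast this
  have h6 : (0 : ℝ) < Real.log N := Real.log_pos (by
    have : 1 < N := by omega
    exact_mod_cast this)
  unfold yN dl
  rw [Real.rpow_def_of_pos h5]
  refine Real.exp_le_exp.2 ?_
  have h7 : Real.log N = Real.log N ^ (19 / 20 : ℝ) * Real.log N ^ (1 / 20 : ℝ) := by
    rw [← Real.rpow_add h6]
    norm_num
  have h8 : 0 < Real.log N ^ (19 / 20 : ℝ) := Real.rpow_pos_of_pos h6 _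
  have h9 : Real.log N ^ (19 / 20 : ℝ) * 20 ≤ Real.log N := by
    calc Real.log N ^ (19 / 20 : ℝ) * 20 ≤ Real.log N ^ (19 / 20 : ℝ) * Real.log N ^ (1 / 20 : ℝ) :=
          mul_le_mul_of_nonneg_left h3 h8.le
      _ = Real.log N := h7.symm
  linarith

/-! ## the rearrangement -/

open Classical in
/-- the divisors of the edge function -/
noncomputable def EDP_S (C N : ℕ) : Finset ℕ :=
  (Icc 1 (UN C N)).filter (fun c : ℕ => (N : ℝ) / Real.log N ^ (2 * C) ≤ (c : ℝ) ∧ rgh (yN N) c)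

open Classical in
theorem EDP_S_mem {C N c : ℕ} : c ∈ EDP_S C N ↔
    1 ≤ c ∧ c ≤ UN C N ∧ (N : ℝ) / Real.log N ^ (2 * C) ≤ (c : ℝ) ∧ rgh (yN N) c := by
  unfold EDP_S
  rw [Finset.mem_filter, Finset.mem_Icc]
  tauto

open Classical in
theorem EDP_pt {C N j : ℕ} (hL : 0 ≤ Real.log N)
    (h : |edg C N j| ≤ if rgh (yN N) j then 4 * Real.log N *
      (#(j.divisors.filter fun c => (N : ℝ) / Real.log N ^ (2 * C) ≤ (c : ℝ) ∧ c ≤ UN C N) : ℝ) else 0) :
    |edg C N j| ≤ 4 * Real.log N * ∑ c ∈ EDP_S C N, if (c ∣ j ∧ rgh (yN N) (j / c)) then (1 : ℝ) else 0 := by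
  have h4 : 0 ≤ 4 * Real.log N := by linarith
  by_cases hj : rgh (yN N) j
  · rw [if_pos hj] at h
    refine h.trans (mul_le_mul_of_nonneg_left ?_ h4)
    rw [Finset.sum_boole]
    refine Nat.cast_le.2 ((Finset.card_le_card (t := ((EDP_S C N).filter
      (fun c => c ∣ j ∧ rgh (yN N) (j / c))).image (fun c : ℕ => (c : ℝ))) fun x hx => ?_).trans
      Finset.card_image_le)
    obtain ⟨h0, h2, h3⟩ := Finset.mem_filter.1 hx
    obtain ⟨c, h1, hcx⟩ := Finset.mem_sup.1 (show x ∈ j.divisors.sup (fun a : ℕ => (pure (a : ℝ) : Finset ℝ)) from h0)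
    have hcx' : x = (c : ℝ) := Finset.mem_singleton.1 hcx
    subst hcx'
    have h5 := Nat.dvd_of_mem_divisors h1
    have h6 : 1 ≤ c := Nat.pos_of_mem_divisors h1
    exact Finset.mem_image.2 ⟨c, Finset.mem_filter.2 ⟨EDP_S_mem.2 ⟨h6, by exact_mod_cast h3, h2, EDP_rgh_div hj h5⟩, h5,
      EDP_rgh_div hj (Nat.div_dvd_of_dvd h5)⟩, rfl⟩
  · rw [if_neg hj] at h
    refine h.trans (mul_nonneg h4 (Finset.sum_nonneg fun c _ => ?_))
    split_ifs <;> norm_num

open Classical in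
theorem EDP_key {C N : ℕ} (hL : 0 ≤ Real.log N) (hE : ∀ j ∈ Win N,
    |edg C N j| ≤ if rgh (yN N) j then 4 * Real.log N *
      (#(j.divisors.filter fun c => (N : ℝ) / Real.log N ^ (2 * C) ≤ (c : ℝ) ∧ c ≤ UN C N) : ℝ) else 0)
    (w : ℕ → ℝ) (hw : ∀ j, 0 ≤ w j) (a : ℕ) :
    ∑ j ∈ Win N with j % 30 = a, |edg C N j| * w j ≤ 4 * Real.log N * ∑ c ∈ EDP_S C N,
      ∑ j ∈ Win N with c ∣ j ∧ rgh (yN N) (j / c) ∧ j % 30 = a, w j := by
  have h1 : ∀ j ∈ (Win N).filter (fun j => j % 30 = a), |edg C N j| * w j ≤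
      4 * Real.log N * ∑ c ∈ EDP_S C N, if (c ∣ j ∧ rgh (yN N) (j / c)) then w j else 0 := by
    intro j hj
    have h2 := mul_le_mul_of_nonneg_right (EDP_pt hL (hE j (Finset.mem_filter.1 hj).1)) (hw j)
    refine h2.trans (le_of_eq ?_)
    rw [mul_assoc, Finset.sum_mul]
    congr 1
    refine Finset.sum_congr rfl fun c _ => ?_
    split_ifs <;> simp
  refine (Finset.sum_le_sum h1).trans (le_of_eq ?_)
  rw [← Finset.mul_sum, Finset.sum_comm]
  congr 1
  refine Finset.sum_congr rfl fun c _ => ?_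
  rw [← Finset.sum_filter, Finset.filter_filter]
  refine Finset.sum_congr ?_ fun _ _ => rfl
  ext j
  simp only [Finset.mem_filter]
  tauto

theorem EDP_card (C N : ℕ) (hL : 0 ≤ Real.log N) : (#(EDP_S C N) : ℝ) ≤ (N : ℝ) * Real.log N ^ C := by
  have h1 : #(EDP_S C N) ≤ UN C N := by
    have h0 : EDP_S C N ⊆ Icc 1 (UN C N) := fun c hc => by
      have := EDP_S_mem.1 hc
      exact Finset.mem_Icc.2 ⟨this.1, this.2.1⟩
    refine (Finset.card_le_card h0).trans ?_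
    rw [Nat.card_Icc]
    omega
  have h2 : ((UN C N : ℕ) : ℝ) ≤ (N : ℝ) * Real.log N ^ C := by
    unfold UN
    exact Nat.floor_le (mul_nonneg (Nat.cast_nonneg N) (pow_nonneg hL C))
  exact (Nat.cast_le.2 h1).trans h2

open Classical in
/-- the estimate from COR and RCS -/
theorem EDP_core {C N : ℕ} {C₀ C' B : ℝ} (hC₀ : 0 < C₀) (hB : 0 ≤ B) (hN : 3 ≤ N)
    (hE : ∀ j ∈ Win N,
    |edg C N j| ≤ if rgh (yN N) j then 4 * Real.log N *
      (#(j.divisors.filter fun c => (N : ℝ) / Real.log N ^ (2 * C) ≤ (c : ℝ) ∧ c ≤ UN C N) : ℝ) else 0)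
    (hR : ∑ c ∈ EDP_S C N, 1 / (c : ℝ) ≤ C' * Real.log (Real.log N) / dl N)
    (w : ℕ → ℝ) (hw : ∀ j, 0 ≤ w j) (a : ℕ)
    (hc : ∀ c ∈ EDP_S C N, ∑ j ∈ Win N with c ∣ j ∧ rgh (yN N) (j / c) ∧ j % 30 = a, w j ≤
      C₀ * (N : ℝ) ^ 2 / (c * Real.log (yN N)) * B + (N : ℝ) ^ (9 / 10 : ℝ)) :
    ∑ j ∈ Win N with j % 30 = a, |edg C N j| * w j ≤
      4 * (C₀ * C' * B * (N : ℝ) ^ 2 * (Real.log N * Real.log (Real.log N) / Real.log N ^ (19 / 10 : ℝ)) +
        (N : ℝ) ^ (19 / 10 : ℝ) * Real.log N ^ (C + 1)) := by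
  have hNpos : (0 : ℝ) < N := by
    have : 0 < N := by omega
    exact_mod_cast this
  have hL : 0 < Real.log N := Real.log_pos (by
    have : 1 < N := by omega
    exact_mod_cast this)
  have hd : 0 < dl N := Real.rpow_pos_of_pos hL _
  have hly : Real.log (yN N) = dl N := Real.log_exp _
  have hd2 : dl N * dl N = Real.log N ^ (19 / 10 : ℝ) := by
    unfold dl
    rw [← Real.rpow_add hL]
    norm_num
  have h1 := EDP_key hL.le hE w hw a
  have h2 : ∑ c ∈ EDP_S C N, ∑ j ∈ Win N with c ∣ j ∧ rgh (yN N) (j / c) ∧ j % 30 = a, w j ≤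
      C₀ * (N : ℝ) ^ 2 / dl N * B * (C' * Real.log (Real.log N) / dl N) +
        (N : ℝ) * Real.log N ^ C * (N : ℝ) ^ (9 / 10 : ℝ) := by
    refine (Finset.sum_le_sum hc).trans ?_
    rw [Finset.sum_add_distrib, Finset.sum_const, nsmul_eq_mul]
    refine add_le_add ?_ (mul_le_mul_of_nonneg_right (EDP_card C N hL.le) (Real.rpow_nonneg hNpos.le _))
    have h3 : ∑ c ∈ EDP_S C N, C₀ * (N : ℝ) ^ 2 / (c * Real.log (yN N)) * B =
        C₀ * (N : ℝ) ^ 2 / dl N * B * ∑ c ∈ EDP_S C N, 1 / (c : ℝ) := by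
      rw [Finset.mul_sum]
      refine Finset.sum_congr rfl fun c hc' => ?_
      have h4 : (c : ℝ) ≠ 0 := by
        have h5 : 1 ≤ c := (EDP_S_mem.1 hc').1
        have : c ≠ 0 := by omega
        exact_mod_cast this
      rw [hly]
      field_simp
    rw [h3]
    exact mul_le_mul_of_nonneg_left hR (by positivity)
  refine h1.trans ((mul_le_mul_of_nonneg_left h2 (by linarith)).trans (le_of_eq ?_))
  have h6 : (N : ℝ) * (N : ℝ) ^ (9 / 10 : ℝ) = (N : ℝ) ^ (19 / 10 : ℝ) := by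
    nth_rewrite 1 [← Real.rpow_one (N : ℝ)]
    rw [← Real.rpow_add hNpos]
    norm_num
  rw [← hd2, ← h6]
  field_simp
  ring

/-! ## the weight 1 -/

/-- the indicator function of `1` -/
def EDP_l (m : ℕ) : ℝ := if m = 1 then 1 else 0

theorem EDP_l_adm {Q : ℝ} (hQ : 1 ≤ Q) : Adm 1 Q EDP_l := by
  constructor
  · intro m
    unfold EDP_l
    split_ifs <;> norm_num
  · intro m hm
    have h1 : m = 1 := by
      by_contra h
      exact hm (if_neg h)
    subst h1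
    exact ⟨squarefree_one, by norm_num, by exact_mod_cast hQ⟩

theorem EDP_l_wt {a : ℕ} (ha : 1 ≤ a) : wt EDP_l a = 1 := by
  unfold wt EDP_l
  rw [Finset.sum_ite_eq', if_pos (Nat.one_mem_divisors.2 (by omega))]

theorem EDP_l_mt {Q : ℝ} (hQ : 1 ≤ Q) : mt Q EDP_l = 1 := by
  unfold mt
  have h1 : (1 : ℕ) ∈ Icc 1 ⌊Q⌋₊ := Finset.mem_Icc.2 ⟨le_refl 1, Nat.le_floor (by exact_mod_cast hQ)⟩
  rw [Finset.sum_eq_single_of_mem 1 h1]
  · simp [EDP_l]
  · intro m _ hm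
    simp [EDP_l, hm]

/-- **EDP** -/
theorem EDP (hCOR : COR_stmt) (hRCS : RCS_stmt) (hEDG : EDG_stmt) : EDP_stmt := by
  obtain ⟨C₀, hC₀, hcor⟩ := hCOR
  intro C ε ε' K hε hε2 hε' hK
  obtain ⟨C', hC', N₁, hN₁⟩ := hRCS C
  obtain ⟨N₂, hN₂⟩ := hEDG C
  obtain ⟨N₃, hN₃⟩ := hcor ε K hε hK
  obtain ⟨N₄, hN₄⟩ := hcor (1 / 4) 1 (by norm_num) one_pos
  have q1 : 0 < ε' / (8 * C₀ * C' * K) := by positivity
  have q2 : 0 < ε' / (240 * C₀ * C') := by positivity
  have E := (EDP_y.and ((EDP_pow C (show (0 : ℝ) < 1 / 5 by norm_num) one_pos).and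
    ((EDP_pow (C + 2) (show (0 : ℝ) < 1 / 10 by norm_num) (show 0 < ε' / 8 by positivity)).and
    ((EDP_pow (C + 1) (show (0 : ℝ) < 1 / 10 by norm_num) (show 0 < ε' / 240 by positivity)).and
    ((EDP_ll (show (0 : ℝ) < 9 / 10 by norm_num) q1).and
    (EDP_ll (show (0 : ℝ) < 9 / 10 by norm_num) q2))))))
  obtain ⟨N₅, hN₅⟩ := Filter.eventually_atTop.1 E
  refine ⟨max (max (max N₁ N₂) (max N₃ N₄)) (max N₅ 3), fun N hN l hl hwt hmt => ?_⟩
  have g1 : N₁ ≤ N := (le_max_left _ _).trans ((le_max_left _ _).trans ((le_max_left _ _).trans hN))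
  have g2 : N₂ ≤ N := (le_max_right _ _).trans ((le_max_left _ _).trans ((le_max_left _ _).trans hN))
  have g3 : N₃ ≤ N := (le_max_left _ _).trans ((le_max_right _ _).trans ((le_max_left _ _).trans hN))
  have g4 : N₄ ≤ N := (le_max_right _ _).trans ((le_max_right _ _).trans ((le_max_left _ _).trans hN))
  have g5 : N₅ ≤ N := (le_max_left _ _).trans ((le_max_right _ _).trans hN)
  have g6 : 3 ≤ N := (le_max_right _ _).trans ((le_max_right _ _).trans hN)
  obtain ⟨e1, e2, e3, e4, e5, e6⟩ := hN₅ N g5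
  have hNpos : (0 : ℝ) < N := by
    have : 0 < N := by omega
    exact_mod_cast this
  have hN1 : (1 : ℝ) ≤ N := by
    have : 1 ≤ N := by omega
    exact_mod_cast this
  have hL : 0 < Real.log N := Real.log_pos (by
    have : 1 < N := by omega
    exact_mod_cast this)
  have hL19 : 0 < Real.log N ^ (19 / 10 : ℝ) := Real.rpow_pos_of_pos hL _
  have hLsplit : Real.log N ^ (19 / 10 : ℝ) = Real.log N * Real.log N ^ (9 / 10 : ℝ) := by
    nth_rewrite 2 [← Real.rpow_one (Real.log N)]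
    rw [← Real.rpow_add hL]
    norm_num
  have hL9 : 0 < Real.log N ^ (9 / 10 : ℝ) := Real.rpow_pos_of_pos hL _
  have hNsplit : (N : ℝ) ^ 2 = (N : ℝ) ^ (19 / 10 : ℝ) * (N : ℝ) ^ (1 / 10 : ℝ) := by
    rw [← Real.rpow_add hNpos]
    norm_num
  have hN19 : 0 < (N : ℝ) ^ (19 / 10 : ℝ) := Real.rpow_pos_of_pos hNpos _
  have hS : ∀ c ∈ EDP_S C N, (c : ℝ) ≤ (N : ℝ) ^ (6 / 5 : ℝ) ∧ rgh (yN N) c := by
    intro c hc
    obtain ⟨h1, h2, _, h3⟩ := EDP_S_mem.1 hc
    refine ⟨?_, h3⟩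
    have h4 : (c : ℝ) ≤ ((UN C N : ℕ) : ℝ) := Nat.cast_le.2 h2
    have h5 : ((UN C N : ℕ) : ℝ) ≤ (N : ℝ) * Real.log N ^ C := by
      unfold UN
      exact Nat.floor_le (mul_nonneg (Nat.cast_nonneg N) (pow_nonneg hL.le C))
    have h6 : (N : ℝ) * Real.log N ^ C ≤ (N : ℝ) * (N : ℝ) ^ (1 / 5 : ℝ) := by
      rw [one_mul] at e2
      exact mul_le_mul_of_nonneg_left e2 hNpos.le
    have h7 : (N : ℝ) * (N : ℝ) ^ (1 / 5 : ℝ) = (N : ℝ) ^ (6 / 5 : ℝ) := by
      nth_rewrite 1 [← Real.rpow_one (N : ℝ)]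
      rw [← Real.rpow_add hNpos]
      norm_num
    linarith
  have hR : ∑ c ∈ EDP_S C N, 1 / (c : ℝ) ≤ C' * Real.log (Real.log N) / dl N := hN₁ N g1
  have hly : Real.log (yN N) = dl N := Real.log_exp _
  have hd : 0 < dl N := Real.rpow_pos_of_pos hL _
  constructor
  · have h1 := EDP_core (B := K / Real.log N) hC₀ (by positivity) g6 (hN₂ N g2) hR
      (fun j => fN N j * wt l (j + 6)) (fun j => mul_nonneg (EDP_fN_nonneg N j) (hwt _ (by omega))) 1
      (fun c hc => by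
        refine ((hN₃ N g3 (yN N) le_rfl e1 l hl hwt c 1 (hS c hc).1 (hS c hc).2).1).trans ?_
        refine add_le_add_left (mul_le_mul_of_nonneg_left hmt ?_) _
        rw [hly]
        positivity)
    have h2 : ∑ j ∈ Win N with j % 30 = 1, |edg C N j| * fN N j * wt l (j + 6) =
        ∑ j ∈ Win N with j % 30 = 1, |edg C N j| * (fN N j * wt l (j + 6)) :=
      Finset.sum_congr rfl fun j _ => mul_assoc _ _ _
    rw [h2]
    refine h1.trans ?_
    have h3 : 4 * (C₀ * C' * (K / Real.log N) * (N : ℝ) ^ 2 *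
        (Real.log N * Real.log (Real.log N) / Real.log N ^ (19 / 10 : ℝ))) ≤
        ε' * (N : ℝ) ^ 2 / Real.log N / 2 := by
      rw [hLsplit]
      have h4 : 4 * (C₀ * C' * (K / Real.log N) * (N : ℝ) ^ 2 *
        (Real.log N * Real.log (Real.log N) / (Real.log N * Real.log N ^ (9 / 10 : ℝ)))) =
        4 * C₀ * C' * K * ((N : ℝ) ^ 2 / Real.log N) * (Real.log (Real.log N) / Real.log N ^ (9 / 10 : ℝ)) := by
        field_simp
      rw [h4]
      have h5 : Real.log (Real.log N) / Real.log N ^ (9 / 10 : ℝ) ≤ ε' / (8 * C₀ * C' * K) := by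
        rw [div_le_iff₀ hL9]
        exact e5
      have h6 : 0 ≤ 4 * C₀ * C' * K * ((N : ℝ) ^ 2 / Real.log N) := by positivity
      refine (mul_le_mul_of_nonneg_left h5 h6).trans (le_of_eq ?_)
      field_simp
      norm_num
    have h7 : 4 * ((N : ℝ) ^ (19 / 10 : ℝ) * Real.log N ^ (C + 1)) ≤ ε' * (N : ℝ) ^ 2 / Real.log N / 2 := by
      rw [div_div, le_div_iff₀ (by positivity), hNsplit]
      calc 4 * ((N : ℝ) ^ (19 / 10 : ℝ) * Real.log N ^ (C + 1)) * (Real.log N * 2) =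
          8 * (N : ℝ) ^ (19 / 10 : ℝ) * Real.log N ^ (C + 2) := by ring
        _ ≤ 8 * (N : ℝ) ^ (19 / 10 : ℝ) * (ε' / 8 * (N : ℝ) ^ (1 / 10 : ℝ)) :=
          mul_le_mul_of_nonneg_left e3 (by positivity)
        _ = ε' * ((N : ℝ) ^ (19 / 10 : ℝ) * (N : ℝ) ^ (1 / 10 : ℝ)) := by ring
    linarith
  · have hQ1 : (1 : ℝ) ≤ (N : ℝ) ^ (1 / 2 - 1 / 4 : ℝ) := Real.one_le_rpow hN1 (by norm_num)
    have hwt1 : ∀ a : ℕ, 1 ≤ a → 0 ≤ wt EDP_l a := fun a ha => by
      rw [EDP_l_wt ha]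
      exact zero_le_one
    have h1 : ∀ a : ℕ, ∑ j ∈ Win N with j % 30 = a, |edg C N j| * (fN N j * wt EDP_l (j + 6)) ≤
        ε' * (N : ℝ) ^ 2 / 30 := by
      intro a
      have h2 := EDP_core (B := 1) hC₀ zero_le_one g6 (hN₂ N g2) hR
        (fun j => fN N j * wt EDP_l (j + 6)) (fun j => mul_nonneg (EDP_fN_nonneg N j) (hwt1 _ (by omega))) a
        (fun c hc => by
          have h3 := (hN₄ N g4 (yN N) le_rfl e1 EDP_l (EDP_l_adm hQ1) hwt1 c a (hS c hc).1 (hS c hc).2).1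
          rw [EDP_l_mt hQ1] at h3
          exact h3)
      refine h2.trans ?_
      have h3 : 4 * (C₀ * C' * 1 * (N : ℝ) ^ 2 *
          (Real.log N * Real.log (Real.log N) / Real.log N ^ (19 / 10 : ℝ))) ≤
          ε' * (N : ℝ) ^ 2 / 60 := by
        rw [hLsplit]
        have h4 : 4 * (C₀ * C' * 1 * (N : ℝ) ^ 2 *
          (Real.log N * Real.log (Real.log N) / (Real.log N * Real.log N ^ (9 / 10 : ℝ)))) =
          4 * C₀ * C' * (N : ℝ) ^ 2 * (Real.log (Real.log N) / Real.log N ^ (9 / 10 : ℝ)) := by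
          field_simp
        rw [h4]
        have h5 : Real.log (Real.log N) / Real.log N ^ (9 / 10 : ℝ) ≤ ε' / (240 * C₀ * C') := by
          rw [div_le_iff₀ hL9]
          exact e6
        have h6 : 0 ≤ 4 * C₀ * C' * (N : ℝ) ^ 2 := by positivity
        refine (mul_le_mul_of_nonneg_left h5 h6).trans (le_of_eq ?_)
        field_simp
        norm_num
      have h7 : 4 * ((N : ℝ) ^ (19 / 10 : ℝ) * Real.log N ^ (C + 1)) ≤ ε' * (N : ℝ) ^ 2 / 60 := by
        rw [hNsplit]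
        calc 4 * ((N : ℝ) ^ (19 / 10 : ℝ) * Real.log N ^ (C + 1)) =
            4 * (N : ℝ) ^ (19 / 10 : ℝ) * Real.log N ^ (C + 1) := by ring
          _ ≤ 4 * (N : ℝ) ^ (19 / 10 : ℝ) * (ε' / 240 * (N : ℝ) ^ (1 / 10 : ℝ)) :=
            mul_le_mul_of_nonneg_left e4 (by positivity)
          _ = ε' * ((N : ℝ) ^ (19 / 10 : ℝ) * (N : ℝ) ^ (1 / 10 : ℝ)) / 60 := by ring
      linarith
    have h8 : ∑ j ∈ Win N, |edg C N j| * fN N j =
        ∑ a ∈ range 30, ∑ j ∈ Win N with j % 30 = a, |edg C N j| * (fN N j * wt EDP_l (j + 6)) := by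
      rw [Finset.sum_fiberwise_of_maps_to (fun j _ => Finset.mem_range.2 (Nat.mod_lt j (by norm_num)))]
      exact Finset.sum_congr rfl fun j _ => by rw [EDP_l_wt (by omega), mul_one]
    rw [h8]
    refine (Finset.sum_le_sum fun a _ => h1 a).trans (le_of_eq ?_)
    rw [Finset.sum_const, Finset.card_range, nsmul_eq_mul]
    push_cast
    ring

end Pool.Agent.EC
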